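import Pool.Agent.L0h37.KM.Stm

/-!
# Project KM: GRP, grouping the pairs by their gcd
-/

set_option autoImplicit false
set_option linter.all false

namespace Pool.Agent.L0h66.KM

open Complex Filter Topology MeasureTheory Set
open Pool.Agent.Y969.GP (ff ht lam FR PS mB)
open Pool.Agent.N879.PZ (ee)
open Pool.Agent.L0h37.KM

noncomputable section

/-- powers of natural numbers -/
theorem cpow_nat (n : ℕ) (hn : 1 ≤ n) (s : ℂ) :
    (n : ℂ) ^ s = cexp (((Real.log n : ℝ) : ℂ) * s) := by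
  have h0 : (n : ℂ) ≠ 0 := by
    have : n ≠ 0 := by omega
    exact_mod_cast this
  rw [Complex.cpow_def_of_ne_zero h0, ← Complex.natCast_log]

/-- the term of the pair `(g p₁, g p₂)` -/
theorem term (a u : ℝ) (g p1 p2 : ℕ) (hg : 1 ≤ g) (h1 : 1 ≤ p1) (h2 : 1 ≤ p2) :
    ((g * p1 : ℕ) : ℂ) ^ (-(1 / 2 + I * ((a + u : ℝ) : ℂ))) *
      ((g * p2 : ℕ) : ℂ) ^ (-(1 / 2 + I * ((a - u : ℝ) : ℂ))) =
    ((g ^ 2 * (p1 * p2) : ℕ) : ℂ) ^ (-(1 / 2 + I * (a : ℂ))) * ee u (p1, p2) := by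
  have e1 : 1 ≤ g * p1 := Nat.mul_pos hg h1
  have e2 : 1 ≤ g * p2 := Nat.mul_pos hg h2
  have e3 : 1 ≤ g ^ 2 * (p1 * p2) := Nat.mul_pos (pow_pos hg 2) (Nat.mul_pos h1 h2)
  rw [cpow_nat _ e1, cpow_nat _ e2, cpow_nat _ e3]
  unfold ee lam
  rw [← Complex.exp_add, ← Complex.exp_add]
  have g0 : (g : ℝ) ≠ 0 := by
    have : g ≠ 0 := by omega
    exact_mod_cast this
  have q1 : (p1 : ℝ) ≠ 0 := by
    have : p1 ≠ 0 := by omega
    exact_mod_cast this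
  have q2 : (p2 : ℝ) ≠ 0 := by
    have : p2 ≠ 0 := by omega
    exact_mod_cast this
  have l1 : Real.log ((g * p1 : ℕ) : ℝ) = Real.log g + Real.log p1 := by
    push_cast
    exact Real.log_mul g0 q1
  have l2 : Real.log ((g * p2 : ℕ) : ℝ) = Real.log g + Real.log p2 := by
    push_cast
    exact Real.log_mul g0 q2
  have l3 : Real.log ((g ^ 2 * (p1 * p2) : ℕ) : ℝ) = 2 * Real.log g + (Real.log p1 + Real.log p2) := by
    push_cast
    rw [Real.log_mul (pow_ne_zero 2 g0) (mul_ne_zero q1 q2), Real.log_mul q1 q2, Real.log_pow]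
    push_cast
    ring
  rw [l1, l2, l3]
  congr 1
  push_cast
  ring

theorem grp1 (M : ℕ) (a u : ℝ) : GM M a u = ∑ p ∈ fr M, bz M a p * ee u p := by
  have e1 : GM M a u = ∑ x ∈ Finset.Icc 1 M ×ˢ Finset.Icc 1 M,
      (x.1 : ℂ) ^ (-(1 / 2 + I * ((a + u : ℝ) : ℂ))) *
        (x.2 : ℂ) ^ (-(1 / 2 + I * ((a - u : ℝ) : ℂ))) := by
    unfold GM PM
    rw [Finset.sum_mul_sum, Finset.sum_product]
  have e2 : ∑ p ∈ fr M, bz M a p * ee u p =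
      ∑ y ∈ (fr M).sigma (fun p => Finset.Icc 1 (M / max p.1 p.2)),
        ((y.2 ^ 2 * (y.1.1 * y.1.2) : ℕ) : ℂ) ^ (-(1 / 2 + I * (a : ℂ))) * ee u y.1 := by
    rw [Finset.sum_sigma]
    refine Finset.sum_congr rfl fun p _ => ?_
    unfold bz
    rw [Finset.sum_mul]
  rw [e1, e2]
  refine Finset.sum_bij' (fun x _ => ⟨(x.1 / Nat.gcd x.1 x.2, x.2 / Nat.gcd x.1 x.2),
    Nat.gcd x.1 x.2⟩) (fun y _ => (y.2 * y.1.1, y.2 * y.1.2)) ?_ ?_ ?_ ?_ ?_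
  · rintro ⟨m, n⟩ hx
    simp only [Finset.mem_product, Finset.mem_Icc] at hx
    obtain ⟨⟨hm, hm'⟩, hn, hn'⟩ := hx
    have hg : 0 < Nat.gcd m n := Nat.gcd_pos_of_pos_left _ hm
    have d1 : Nat.gcd m n ∣ m := Nat.gcd_dvd_left _ _
    have d2 : Nat.gcd m n ∣ n := Nat.gcd_dvd_right _ _
    have p1 : 1 ≤ m / Nat.gcd m n := Nat.div_pos (Nat.le_of_dvd hm d1) hg
    have p2 : 1 ≤ n / Nat.gcd m n := Nat.div_pos (Nat.le_of_dvd hn d2) hg
    simp only [Finset.mem_sigma, fr, Finset.mem_filter, Finset.mem_product, Finset.mem_Icc]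
    refine ⟨⟨⟨⟨p1, (Nat.div_le_self _ _).trans hm'⟩, p2, (Nat.div_le_self _ _).trans hn'⟩,
      Nat.coprime_div_gcd_div_gcd hg⟩, hg, ?_⟩
    rw [Nat.le_div_iff_mul_le (lt_of_lt_of_le p1 (le_max_left _ _)), Nat.mul_comm]
    rcases max_choice (m / Nat.gcd m n) (n / Nat.gcd m n) with h | h
    · rw [h, Nat.div_mul_cancel d1]
      exact hm'
    · rw [h, Nat.div_mul_cancel d2]
      exact hn'
  · rintro ⟨⟨p1, p2⟩, g⟩ hy
    simp only [Finset.mem_sigma, fr, Finset.mem_filter, Finset.mem_product, Finset.mem_Icc] at hy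
    obtain ⟨⟨⟨⟨h1, h1'⟩, h2, h2'⟩, hc⟩, hg, hg'⟩ := hy
    rw [Nat.le_div_iff_mul_le (lt_of_lt_of_le h1 (le_max_left _ _))] at hg'
    simp only [Finset.mem_product, Finset.mem_Icc]
    refine ⟨⟨Nat.mul_pos hg h1, le_trans (Nat.mul_le_mul_left _ (le_max_left _ _)) hg'⟩,
      Nat.mul_pos hg h2, le_trans (Nat.mul_le_mul_left _ (le_max_right _ _)) hg'⟩
  · rintro ⟨m, n⟩ hx
    have d1 : Nat.gcd m n ∣ m := Nat.gcd_dvd_left _ _
    have d2 : Nat.gcd m n ∣ n := Nat.gcd_dvd_right _ _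
    show (Nat.gcd m n * (m / Nat.gcd m n), Nat.gcd m n * (n / Nat.gcd m n)) = (m, n)
    rw [Nat.mul_div_cancel' d1, Nat.mul_div_cancel' d2]
  · rintro ⟨⟨p1, p2⟩, g⟩ hy
    simp only [Finset.mem_sigma, fr, Finset.mem_filter, Finset.mem_product, Finset.mem_Icc] at hy
    obtain ⟨⟨⟨⟨h1, h1'⟩, h2, h2'⟩, hc⟩, hg, hg'⟩ := hy
    have hgcd : Nat.gcd (g * p1) (g * p2) = g := by
      rw [Nat.gcd_mul_left, hc, Nat.mul_one]
    show (⟨(g * p1 / Nat.gcd (g * p1) (g * p2), g * p2 / Nat.gcd (g * p1) (g * p2)),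
      Nat.gcd (g * p1) (g * p2)⟩ : (_ : ℕ × ℕ) × ℕ) = ⟨(p1, p2), g⟩
    rw [hgcd, Nat.mul_div_cancel_left _ hg, Nat.mul_div_cancel_left _ hg]
  · rintro ⟨m, n⟩ hx
    simp only [Finset.mem_product, Finset.mem_Icc] at hx
    obtain ⟨⟨hm, hm'⟩, hn, hn'⟩ := hx
    have hg : 0 < Nat.gcd m n := Nat.gcd_pos_of_pos_left _ hm
    have d1 : Nat.gcd m n ∣ m := Nat.gcd_dvd_left _ _
    have d2 : Nat.gcd m n ∣ n := Nat.gcd_dvd_right _ _
    have p1 : 1 ≤ m / Nat.gcd m n := Nat.div_pos (Nat.le_of_dvd hm d1) hg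
    have p2 : 1 ≤ n / Nat.gcd m n := Nat.div_pos (Nat.le_of_dvd hn d2) hg
    have h := term a u (Nat.gcd m n) (m / Nat.gcd m n) (n / Nat.gcd m n) hg p1 p2
    rw [Nat.mul_div_cancel' d1, Nat.mul_div_cancel' d2] at h
    exact h

theorem FR_eq {M N : ℕ} (h : N ≤ M) : FR N = (fr M).filter (fun p => ¬ ((N : ℝ) < ht p)) := by
  ext ⟨p, q⟩
  simp only [FR, PS, fr, ht, Finset.mem_filter, Finset.mem_product, Finset.mem_Icc, not_lt]
  constructor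
  · rintro ⟨⟨⟨⟨h1, h2⟩, h3, h4⟩, h5⟩, h6⟩
    refine ⟨⟨⟨⟨h1, h2.trans h⟩, h3, h4.trans h⟩, h6⟩, ?_⟩
    exact_mod_cast h5
  · rintro ⟨⟨⟨⟨h1, h2⟩, h3, h4⟩, h6⟩, h5⟩
    have h5' : p * q ≤ N := by exact_mod_cast h5
    refine ⟨⟨⟨⟨h1, ?_⟩, h3, ?_⟩, h5'⟩, h6⟩
    · exact (Nat.le_mul_of_pos_right p h3).trans h5'
    · exact (Nat.le_mul_of_pos_left q h1).trans h5'

theorem grp2 (M N : ℕ) (a u : ℝ) (h : N ≤ M) : GM M a u = DL M N a u + HI M N a u := by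
  rw [grp1]
  unfold DL HI
  rw [FR_eq h, add_comm]
  exact (Finset.sum_filter_add_sum_filter_not (fr M) (fun p => (N : ℝ) < ht p) _).symm

theorem grp3 (M : ℕ) (a : ℝ) (p : ℕ × ℕ) (h1 : 1 ≤ p.1) (h2 : 1 ≤ p.2) :
    ‖bz M a p‖ ≤ (1 + Real.log M) * (√(ht p))⁻¹ := by
  have q1 : (0 : ℝ) < p.1 := by exact_mod_cast h1
  have q2 : (0 : ℝ) < p.2 := by exact_mod_cast h2
  have hht : 0 < ht p := mul_pos q1 q2
  have hterm : ∀ g ∈ Finset.Icc 1 (M / max p.1 p.2),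
      ‖((g ^ 2 * (p.1 * p.2) : ℕ) : ℂ) ^ (-(1 / 2 + I * (a : ℂ)))‖ = (g : ℝ)⁻¹ * (√(ht p))⁻¹ := by
    intro g hg
    have hg1 : 1 ≤ g := (Finset.mem_Icc.1 hg).1
    have g0 : (0 : ℝ) < g := by exact_mod_cast hg1
    have hpos : 0 < g ^ 2 * (p.1 * p.2) := Nat.mul_pos (pow_pos hg1 2) (Nat.mul_pos h1 h2)
    rw [Complex.norm_natCast_cpow_of_pos hpos]
    have hre : (-(1 / 2 + I * (a : ℂ))).re = -(1 / 2) := by simp
    rw [hre, Real.rpow_neg (by positivity), ← Real.sqrt_eq_rpow]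
    push_cast
    rw [Real.sqrt_mul (by positivity), Real.sqrt_sq g0.le, mul_inv]
    rfl
  calc ‖bz M a p‖ ≤ ∑ g ∈ Finset.Icc 1 (M / max p.1 p.2),
        ‖((g ^ 2 * (p.1 * p.2) : ℕ) : ℂ) ^ (-(1 / 2 + I * (a : ℂ)))‖ := norm_sum_le _ _
    _ = (∑ g ∈ Finset.Icc 1 (M / max p.1 p.2), (g : ℝ)⁻¹) * (√(ht p))⁻¹ := by
        rw [Finset.sum_mul]
        exact Finset.sum_congr rfl hterm
    _ ≤ (1 + Real.log M) * (√(ht p))⁻¹ := by
        apply mul_le_mul_of_nonneg_right _ (by positivity)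
        have hsub : ∑ g ∈ Finset.Icc 1 (M / max p.1 p.2), (g : ℝ)⁻¹ ≤
            ∑ g ∈ Finset.Icc 1 M, (g : ℝ)⁻¹ := by
          apply Finset.sum_le_sum_of_subset_of_nonneg
          · exact Finset.Icc_subset_Icc le_rfl (Nat.div_le_self _ _)
          · intro g _ _
            positivity
        refine hsub.trans ?_
        have h := harmonic_le_one_add_log M
        rw [harmonic_eq_sum_Icc] at h
        push_cast at h
        exact h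

theorem t_GRP : S_GRP := fun M a =>
  ⟨fun u => grp1 M a u, fun N u h => grp2 M N a u h, fun p h1 h2 => grp3 M a p h1 h2⟩

end

end Pool.Agent.L0h66.KM
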